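import Pool.Agent.H295R3.NA.StmtsB

/-! Tasks `TaskASR` and `TaskAVN` of the project H295-NA.  (helper676) -/

set_option autoImplicit false

open Filter Topology MeasureTheory

namespace Pool.Agent.H676R4.NA

open Pool.Agent.H295R3.NA

/-! ### the main term -/

theorem summable_half : Summable (fun l : Nat.Primes => (1 / 2 : ℝ) ^ (l : ℕ)) :=
  (summable_geometric_two).comp_injective Nat.Primes.coe_nat_injective

theorem one_le_pred (l : Nat.Primes) : (1 : ℝ) ≤ ((l : ℕ) : ℝ) - 1 := by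
  have h : (2 : ℝ) ≤ ((l : ℕ) : ℝ) := by exact_mod_cast l.2.two_le
  linarith

theorem exp_le (L L' : ℝ) (l : Nat.Primes) :
    Real.exp (-L / (((l : ℕ) : ℝ) - 1)) ≤
      Real.exp |L - L'| * Real.exp (-L' / (((l : ℕ) : ℝ) - 1)) := by
  have h1 := one_le_pred l
  have h0 : (0 : ℝ) < ((l : ℕ) : ℝ) - 1 := by linarith
  rw [← Real.exp_add, Real.exp_le_exp]
  have h2 : -L / (((l : ℕ) : ℝ) - 1) - -L' / (((l : ℕ) : ℝ) - 1) =
      -(L - L') / (((l : ℕ) : ℝ) - 1) := by ring
  have h3 : -(L - L') / (((l : ℕ) : ℝ) - 1) ≤ |L - L'| / (((l : ℕ) : ℝ) - 1) :=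
    div_le_div_of_nonneg_right (neg_le_abs _) h0.le
  have h4 : |L - L'| / (((l : ℕ) : ℝ) - 1) ≤ |L - L'| := div_le_self (abs_nonneg _) h1
  linarith

theorem summable_term (L : ℝ) :
    Summable (fun l : Nat.Primes => (1 / 2 : ℝ) ^ (l : ℕ) *
      Real.exp (-L / (((l : ℕ) : ℝ) - 1))) := by
  refine Summable.of_nonneg_of_le (fun l => by positivity) (fun l => ?_)
    (summable_half.mul_right (Real.exp |L|))
  have h := exp_le L 0 l
  rw [sub_zero, neg_zero, zero_div, Real.exp_zero, mul_one] at h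
  exact mul_le_mul_of_nonneg_left h (by positivity)

theorem MMr_pos (L : ℝ) : 0 < MMr L := by
  unfold MMr
  exact (summable_term L).tsum_pos (fun l => by positivity) ⟨2, Nat.prime_two⟩ (by positivity)

theorem MMr_le (L L' : ℝ) : MMr L ≤ Real.exp |L - L'| * MMr L' := by
  unfold MMr
  rw [← tsum_mul_left]
  refine (summable_term L).tsum_le_tsum (fun l => ?_) ((summable_term L').mul_left _)
  have h := mul_le_mul_of_nonneg_left (exp_le L L' l) (show (0 : ℝ) ≤ (1 / 2) ^ (l : ℕ) by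
    positivity)
  linarith

theorem MM_eq (n : ℕ) : MM n = MMr (LL n) := rfl

theorem ratio_le (L L' : ℝ) : MMr L / MMr L' ≤ Real.exp |L - L'| := by
  rw [div_le_iff₀ (MMr_pos L')]
  exact MMr_le L L'

theorem le_ratio (L L' : ℝ) : Real.exp (-|L - L'|) ≤ MMr L / MMr L' := by
  rw [le_div_iff₀ (MMr_pos L'), Real.exp_neg, inv_mul_le_iff₀ (Real.exp_pos _), abs_sub_comm]
  exact MMr_le L' L

/-! ### the floor -/

theorem log_floor_div : Tendsto (fun x : ℝ => Real.log (⌊x⌋₊ : ℝ) / Real.log x) atTop (𝓝 1) := by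
  have h1 : Tendsto (fun x : ℝ => ((⌊x⌋₊ : ℝ)) / x) atTop (𝓝 1) := tendsto_nat_floor_div_atTop
  have h2 : Tendsto (fun x : ℝ => Real.log (((⌊x⌋₊ : ℝ)) / x)) atTop (𝓝 0) := by
    have := ((Real.continuousAt_log one_ne_zero).tendsto).comp h1
    rwa [Real.log_one] at this
  have h3 : Tendsto (fun x : ℝ => Real.log (((⌊x⌋₊ : ℝ)) / x) / Real.log x) atTop (𝓝 0) :=
    h2.div_atTop Real.tendsto_log_atTop
  have h4 : Tendsto (fun x : ℝ => 1 + Real.log (((⌊x⌋₊ : ℝ)) / x) / Real.log x) atTop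
      (𝓝 (1 + 0)) := h3.const_add 1
  rw [add_zero] at h4
  refine h4.congr' ?_
  filter_upwards [eventually_gt_atTop (2 : ℝ)] with x hx
  have hl : 0 < Real.log x := Real.log_pos (by linarith)
  have hf : 0 < (⌊x⌋₊ : ℝ) := by
    have : 0 < ⌊x⌋₊ := Nat.floor_pos.mpr (by linarith)
    exact_mod_cast this
  rw [Real.log_div hf.ne' (by linarith)]
  field_simp
  ring

theorem loglog_sub : Tendsto (fun x : ℝ => LL ⌊x⌋₊ - Real.log (Real.log x)) atTop (𝓝 0) := by
  have h1 := ((Real.continuousAt_log one_ne_zero).tendsto).comp log_floor_div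
  rw [Real.log_one] at h1
  refine h1.congr' ?_
  filter_upwards [eventually_gt_atTop (3 : ℝ)] with x hx
  have hl : 0 < Real.log x := Real.log_pos (by linarith)
  have hf : 0 < Real.log (⌊x⌋₊ : ℝ) := by
    apply Real.log_pos
    have : 2 ≤ ⌊x⌋₊ := Nat.le_floor (by push_cast; linarith)
    have h2 : (2 : ℝ) ≤ (⌊x⌋₊ : ℝ) := by exact_mod_cast this
    linarith
  show Real.log (Real.log (⌊x⌋₊ : ℝ) / Real.log x) = LL ⌊x⌋₊ - Real.log (Real.log x)
  rw [Real.log_div hf.ne' hl.ne']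
  rfl

theorem ratio_tendsto : Tendsto (fun x : ℝ => MM ⌊x⌋₊ / MMr (Real.log (Real.log x))) atTop
    (𝓝 1) := by
  have h1 : Tendsto (fun x : ℝ => |LL ⌊x⌋₊ - Real.log (Real.log x)|) atTop (𝓝 0) := by
    have := loglog_sub.abs
    rwa [abs_zero] at this
  have h2 : Tendsto (fun x : ℝ => Real.exp |LL ⌊x⌋₊ - Real.log (Real.log x)|) atTop (𝓝 1) := by
    have := (Real.continuous_exp.tendsto 0).comp h1
    rwa [Real.exp_zero] at this
  have h3 : Tendsto (fun x : ℝ => Real.exp (-|LL ⌊x⌋₊ - Real.log (Real.log x)|)) atTop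
      (𝓝 1) := by
    have h4 := h1.neg
    rw [neg_zero] at h4
    have := (Real.continuous_exp.tendsto 0).comp h4
    rwa [Real.exp_zero] at this
  exact tendsto_of_tendsto_of_tendsto_of_le_of_le h3 h2
    (fun x => le_ratio _ _) (fun x => ratio_le _ _)

theorem taskASR : TaskASR := by
  intro h
  unfold ASR
  have h1 : Tendsto (fun x : ℝ => Nb NonArith ⌊x⌋₊ / ((⌊x⌋₊ : ℝ) * MM ⌊x⌋₊)) atTop (𝓝 1) :=
    h.comp tendsto_nat_floor_atTop
  have h2 : Tendsto (fun x : ℝ => ((⌊x⌋₊ : ℝ)) / x) atTop (𝓝 1) := tendsto_nat_floor_div_atTop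
  have h3 := (h1.mul h2).mul ratio_tendsto
  rw [one_mul, one_mul] at h3
  refine h3.congr' ?_
  filter_upwards [eventually_gt_atTop (2 : ℝ)] with x hx
  have hf : (⌊x⌋₊ : ℝ) ≠ 0 := by
    have : 0 < ⌊x⌋₊ := Nat.floor_pos.mpr (by linarith)
    exact_mod_cast this.ne'
  have hM : MM ⌊x⌋₊ ≠ 0 := by
    rw [MM_eq]
    exact (MMr_pos _).ne'
  have hR := (MMr_pos (Real.log (Real.log x))).ne'
  have hx0 : x ≠ 0 := by linarith
  field_simp

/-! ### the averages -/

theorem continuousOn_MMr : ContinuousOn MMr (Set.Ici 0) := by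
  unfold MMr
  refine continuousOn_tsum (u := fun l : Nat.Primes => (1 / 2 : ℝ) ^ (l : ℕ)) (fun l => ?_)
    summable_half (fun l L hL => ?_)
  · fun_prop
  · have h1 := one_le_pred l
    have hL' : (0 : ℝ) ≤ L := hL
    rw [Real.norm_eq_abs, abs_of_nonneg (by positivity)]
    have h2 : Real.exp (-L / (((l : ℕ) : ℝ) - 1)) ≤ 1 := by
      apply Real.exp_le_one_iff.mpr
      exact div_nonpos_of_nonpos_of_nonneg (by linarith) (by linarith)
    exact mul_le_of_le_one_right (by positivity) h2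

theorem gg_pos {L : ℝ} (hL : 1 < L) : 0 < gg L := by
  unfold gg
  have h0 : 0 < L := by linarith
  have h1 : 0 < Real.log L := Real.log_pos hL
  have h2 : 0 < Real.log 2 := Real.log_pos (by norm_num)
  have h3 := Real.pi_pos
  positivity

theorem continuousOn_gg : ContinuousOn gg (Set.Ioi 1) := by
  unfold gg
  intro L hL
  have hL' : (1 : ℝ) < L := hL
  have h0 : L ≠ 0 := by linarith
  have h1 : 0 < Real.log L := Real.log_pos hL
  have h2 : 0 < Real.log 2 := Real.log_pos (by norm_num)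
  apply ContinuousAt.continuousWithinAt
  refine ContinuousAt.div ?_ ?_ (by positivity)
  · refine ContinuousAt.mul (ContinuousAt.mul continuousAt_const ?_) ?_
    · exact Real.continuousAt_rpow_const _ _ (Or.inl h0)
    · fun_prop
  · exact ContinuousAt.mul continuousAt_const (Real.continuousAt_log h0)

theorem measurable_gg : Measurable gg := by
  unfold gg
  fun_prop

theorem big {y : ℝ} (hy : 2 ≤ y) : 1 < y ^ 2 * Real.log 2 := by
  have := Real.log_two_gt_d9
  nlinarith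

theorem loglog_xx (y : ℝ) : Real.log (Real.log (xx y)) = y ^ 2 * Real.log 2 := by
  unfold xx
  rw [Real.log_exp, Real.log_exp]

theorem tendsto_xx : Tendsto xx atTop atTop := by
  unfold xx
  refine Real.tendsto_exp_atTop.comp (Real.tendsto_exp_atTop.comp ?_)
  exact (tendsto_pow_atTop two_ne_zero).atTop_mul_const (Real.log_pos (by norm_num))

theorem measurable_G : Measurable (fun y : ℝ => (Nb NonArith ⌊xx y⌋₊ / xx y) /
    gg (y ^ 2 * Real.log 2)) := by
  have h1 : Measurable xx := by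
    unfold xx
    fun_prop
  have h2 : Measurable (fun y : ℝ => Nb NonArith ⌊xx y⌋₊) :=
    (measurable_from_top (f := fun n : ℕ => Nb NonArith n)).comp (Nat.measurable_floor.comp h1)
  exact (h2.div h1).div (measurable_gg.comp (by fun_prop))

theorem taskAVN : TaskAVN := by
  intro hA hV
  unfold AVN
  unfold AV at hV
  unfold ASR at hA
  set F : ℝ → ℝ := fun y => MMr (y ^ 2 * Real.log 2) / gg (y ^ 2 * Real.log 2) with hF
  set G : ℝ → ℝ := fun y => (Nb NonArith ⌊xx y⌋₊ / xx y) / gg (y ^ 2 * Real.log 2) with hG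
  have hu := hA.comp tendsto_xx
  have hGF : ∀ y, G y = (Nb NonArith ⌊xx y⌋₊ / (xx y * MMr (Real.log (Real.log (xx y))))) *
      F y := by
    intro y
    have hR := (MMr_pos (y ^ 2 * Real.log 2)).ne'
    have hx : xx y ≠ 0 := (Real.exp_pos _).ne'
    simp only [hG, hF]
    rw [loglog_xx, div_mul_div_comm, div_div, ← div_mul_div_comm,
      mul_comm (xx y) (MMr _), div_mul_eq_div_div]
    field_simp
  have hFnn : ∀ y, 2 ≤ y → 0 ≤ F y := fun y hy =>
    div_nonneg (MMr_pos _).le (gg_pos (big hy)).le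
  have hFcont : ∀ Y : ℝ, 2 ≤ Y → IntervalIntegrable F volume Y (2 * Y) := by
    intro Y hY
    apply ContinuousOn.intervalIntegrable
    rw [Set.uIcc_of_le (by linarith)]
    have hmap : Set.MapsTo (fun y : ℝ => y ^ 2 * Real.log 2) (Set.Icc Y (2 * Y)) (Set.Ioi 1) :=
      fun y hy => big (hY.trans hy.1)
    refine ContinuousOn.div ?_ ?_ ?_
    · refine continuousOn_MMr.comp (by fun_prop) fun y hy => ?_
      have := hmap hy
      have h' : (1 : ℝ) < y ^ 2 * Real.log 2 := this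
      exact (zero_lt_one.trans h').le
    · exact continuousOn_gg.comp (by fun_prop) hmap
    · intro y hy
      exact (gg_pos (hmap hy)).ne'
  rw [Metric.tendsto_atTop]
  intro ε hε
  -- choose a small δ
  obtain ⟨δ, hδ0, hδ1, hδ2⟩ : ∃ δ : ℝ, 0 < δ ∧ δ ≤ 1 ∧ 4 * δ < ε :=
    ⟨min 1 (ε / 8), by positivity, min_le_left _ _, by
      have := min_le_right 1 (ε / 8)
      linarith⟩
  rw [Metric.tendsto_atTop] at hu hV
  obtain ⟨Y1, h1⟩ := hu δ hδ0
  obtain ⟨Y2, h2⟩ := hV δ hδ0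
  refine ⟨max 2 (max Y1 Y2), fun Y hY => ?_⟩
  have hY2 : 2 ≤ Y := (le_max_left _ _).trans hY
  have hYY1 : Y1 ≤ Y := ((le_max_left _ _).trans (le_max_right _ _)).trans hY
  have hYY2 : Y2 ≤ Y := ((le_max_right _ _).trans (le_max_right _ _)).trans hY
  have hY0 : 0 < Y := by linarith
  have hle : Y ≤ 2 * Y := by linarith
  have hav := h2 Y hYY2
  rw [Real.dist_eq] at hav
  have hpt : ∀ y, Y ≤ y → |G y - F y| ≤ δ * F y := by
    intro y hy
    have h3 := h1 y (hYY1.trans hy)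
    rw [Real.dist_eq] at h3
    have h4 := hFnn y (hY2.trans hy)
    have h5 : G y - F y = (Nb NonArith ⌊xx y⌋₊ /
        (xx y * MMr (Real.log (Real.log (xx y)))) - 1) * F y := by
      rw [hGF]; ring
    rw [h5, abs_mul, abs_of_nonneg h4]
    exact mul_le_mul_of_nonneg_right h3.le h4
  have hFi := hFcont Y hY2
  have hGi : IntervalIntegrable G volume Y (2 * Y) := by
    refine (hFi.const_mul 2).mono_fun measurable_G.aestronglyMeasurable ?_
    rw [Set.uIoc_of_le hle]
    refine (ae_restrict_iff' measurableSet_Ioc).mpr (Filter.Eventually.of_forall fun y hy => ?_)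
    have h3 := hpt y hy.1.le
    have h4 := hFnn y (hY2.trans hy.1.le)
    have h5 := abs_le.mp h3
    show ‖G y‖ ≤ ‖2 * F y‖
    rw [Real.norm_eq_abs, Real.norm_eq_abs, abs_of_nonneg (show 0 ≤ 2 * F y by positivity),
      abs_le]
    constructor <;> nlinarith
  have hup : ∫ y in Y..(2 * Y), G y ≤ (1 + δ) * ∫ y in Y..(2 * Y), F y := by
    rw [← intervalIntegral.integral_const_mul]
    refine intervalIntegral.integral_mono_on hle hGi (hFi.const_mul _) fun y hy => ?_
    have h3 := abs_le.mp (hpt y hy.1)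
    linarith [h3.2]
  have hlo : (1 - δ) * ∫ y in Y..(2 * Y), F y ≤ ∫ y in Y..(2 * Y), G y := by
    rw [← intervalIntegral.integral_const_mul]
    refine intervalIntegral.integral_mono_on hle (hFi.const_mul _) hGi fun y hy => ?_
    have h3 := abs_le.mp (hpt y hy.1)
    linarith [h3.1]
  have hY1 : 0 ≤ 1 / Y := by positivity
  have hup' := mul_le_mul_of_nonneg_left hup hY1
  have hlo' := mul_le_mul_of_nonneg_left hlo hY1
  obtain ⟨A, hAe⟩ : ∃ A, A = 1 / Y * ∫ y in Y..(2 * Y), F y := ⟨_, rfl⟩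
  obtain ⟨Bv, hBe⟩ : ∃ Bv, Bv = 1 / Y * ∫ y in Y..(2 * Y), G y := ⟨_, rfl⟩
  have e1 : 1 / Y * ((1 + δ) * ∫ y in Y..(2 * Y), F y) = (1 + δ) * A := by rw [hAe]; ring
  have e2 : 1 / Y * ((1 - δ) * ∫ y in Y..(2 * Y), F y) = (1 - δ) * A := by rw [hAe]; ring
  rw [e1, ← hBe] at hup'
  rw [e2, ← hBe] at hlo'
  rw [← hAe] at hav
  rw [Real.dist_eq, ← hBe, abs_lt]
  have h3 := abs_lt.mp hav
  constructor <;> nlinarith

end Pool.Agent.H676R4.NA
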